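import Pool.Agent.helper69.AD.GS5

/-!
Module FE3 of project ad (MP_a29257_gt): the two pants decompositions of a setup have the same
number of curves.
-/

open scoped MatrixGroups LinearAlgebra.Projectivization
open Matrix UpperHalfPlane
open Pool.Agent.helper73.AD (PS Arc Word sg AData Family PreFamily Cone bs CARD_stmt)

namespace AdSBend

noncomputable section

open LeafSystem

private lemma fe3_aux (hBD8 : BD8_stmt) (hGM1 : GM1_stmt) (hPN3 : PN3_stmt) (hTW2 : TW2_stmt)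
    (hFE1 : FE1_stmt) (hCARD : CARD_stmt) (Γ : Subgroup SL(2, ℝ)) (hΓ : IsClosedSurfaceGroup Γ)
    (m n : ℕ) (X : Setup Γ (Fin m) (Fin n)) : n ≤ m := by
  -- a base point off the leaves
  obtain ⟨z₀, hz₀⟩ : ∃ z₀ : ℍ, X.S'.OffPt z₀ := by
    by_cases hne : ∃ p, p ∈ X.S'.L
    · obtain ⟨p, hp⟩ := hne
      obtain ⟨⟨z, hz⟩, -⟩ := hPN3 Γ hΓ X.S' p hp
      exact ⟨z, hz.1⟩
    · refine ⟨UpperHalfPlane.I, ?_⟩
      intro p hp
      exact absurd ⟨p, hp⟩ hne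
  have hrep : IsPRep Γ (fun γ => γ) := by
    intro γ _ δ _ ε _ h
    exact h
  have hconj : IsConjBy Γ (Equiv.refl Bd) (fun γ => γ) := by
    refine ⟨fun x y z h => h, fun γ _ x => rfl⟩
  have htr : ∀ p ∈ X.S'.L, 2 < |trc ((fun γ => γ) (gen Γ p))| := by
    intro p hp
    have hg := hGM1 Γ hΓ p (X.S'.closed p hp)
    exact (hBD8.2.2.2.1 (gen Γ p)).2 ⟨p, hg.2.1⟩
  have hA : ∀ T : Fin n → ℝ, ∃ A : ℍ → SL(2, ℝ),
      X.S'.IsTwist (fun γ => γ) (fun p => T (X.D'.cls p)) z₀ A := by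
    intro T
    refine (hTW2 Γ hΓ X.S' (fun γ => γ) (fun p => T (X.D'.cls p)) z₀ hrep htr ?_ ?_ hz₀).1
    · intro γ hγ p hp
      show T (X.D'.cls (ga γ p)) = T (X.D'.cls p)
      rw [X.D'.cls_ga γ hγ p hp]
    · intro p hp
      show T (X.D'.cls (sw p)) = T (X.D'.cls p)
      rw [X.D'.cls_sw p hp]
  choose A hA using hA
  have hdef : X.Def (Equiv.refl Bd) (fun γ => γ) z₀ A := ⟨hconj, hz₀, hA⟩
  obtain ⟨Φ, -⟩ := hFE1 Γ hΓ (Fin m) (Fin n) X (Equiv.refl Bd) (fun γ => γ) z₀ A hdef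
  have := hCARD (Fin m) (Fin n) X.w Φ
  simpa using this

theorem FE3 (hBD8 : BD8_stmt) (hGM1 : GM1_stmt) (hPN3 : PN3_stmt) (hTW2 : TW2_stmt)
    (hFE1 : FE1_stmt) (hCARD : CARD_stmt) : FE3_stmt := by
  intro Γ hΓ m n hX hY
  obtain ⟨X⟩ := hX
  obtain ⟨Y⟩ := hY
  exact le_antisymm (fe3_aux hBD8 hGM1 hPN3 hTW2 hFE1 hCARD Γ hΓ m n X)
    (fe3_aux hBD8 hGM1 hPN3 hTW2 hFE1 hCARD Γ hΓ n m Y)

end

end AdSBend
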