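import Pool.Agent.helper69.AD.GS5

/-!
Module FE6 of project ad (MP_a29257_gt): representations with equal coordinates are conjugate.
-/

open scoped MatrixGroups LinearAlgebra.Projectivization
open Matrix UpperHalfPlane
open Pool.Agent.helper73.AD (PS Arc Word sg AData Family PreFamily Cone bs)

namespace AdSBend

noncomputable section

open LeafSystem

private lemma fe6_Dm {s t : ℝ} (h : PEq (Dm s) (Dm t)) : s = t := by
  rcases h with h | h
  · have h0 : (Dm s).1 0 0 = (Dm t).1 0 0 := by rw [h]
    simp only [Dm, Matrix.of_apply, Matrix.cons_val', Matrix.cons_val_zero,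
      Matrix.cons_val_fin_one] at h0
    have := Real.exp_injective h0
    linarith
  · exfalso
    have h0 : (Dm s).1 0 0 = (-(Dm t)).1 0 0 := by rw [h]
    have h1 : (-(Dm t)).1 0 0 = -((Dm t).1 0 0) := by
      simp
    rw [h1] at h0
    simp only [Dm, Matrix.of_apply, Matrix.cons_val', Matrix.cons_val_zero,
      Matrix.cons_val_fin_one] at h0
    have h2 := Real.exp_pos (s / 2)
    have h3 := Real.exp_pos (t / 2)
    linarith

private lemma fe6_cancel {F X : SL(2, ℝ)} {s t : ℝ} (h1 : PEq F (X * Dm s))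
    (h2 : PEq F (X * Dm t)) : s = t := by
  apply fe6_Dm
  rcases h1 with h1 | h1 <;> rcases h2 with h2 | h2
  · left
    have : X * Dm s = X * Dm t := by rw [← h1, ← h2]
    exact mul_left_cancel this
  · right
    have h3 : X * Dm s = X * (-(Dm t)) := by rw [← h1, h2, mul_neg]
    exact mul_left_cancel h3
  · right
    have h3 : X * Dm s = X * (-(Dm t)) := by
      rw [mul_neg, ← h2, h1, neg_neg]
    exact mul_left_cancel h3
  · left
    have h3 : X * Dm s = X * Dm t := by
      have : -(X * Dm s) = -(X * Dm t) := by rw [← h1, ← h2]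
      exact neg_injective this
    exact mul_left_cancel h3

theorem FE6 (hIJ2 : IJ2_stmt) (hFB4 : FB4_stmt) (hFB5 : FB5_stmt) : FE6_stmt := by
  intro Γ hΓ J S D hS hne r r' z hr hr' hz hz'
  refine hIJ2 Γ hΓ S hS hne r r' hr hr' ?_ ?_
  · intro p hp
    have e1 := (((hFB4 Γ hΓ S J D r hr).2.2.1) z hz).2 p hp
    have e2 := (((hFB4 Γ hΓ S J D r' hr').2.2.1) z hz').2 p hp
    rw [← e1, ← e2]
  · intro p u v F G F' G' t hpu hpv hF hG hF' hG' hFG
    have hp : p ∈ S.L := by
      obtain ⟨x, hx | hx⟩ := hpu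
      · exact hx.1.1
      · exact hx.1.2.1
    obtain ⟨k, hk⟩ := hFB5 Γ hΓ S hS J D p u v hp hpu hpv
    have k1 := hk r z hr hz F G hF hG
    have k2 := hk r' z hr' hz' F' G' hF' hG'
    have := fe6_cancel hFG k1
    rw [this]
    exact k2

end

end AdSBend
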